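import Pool.Agent.Lib.MP_0b6b0e_gt.ZB.Defs

/-!
Module F2: polar coordinates and concentration at `± e`.
-/

set_option autoImplicit false

open Set Filter Topology MeasureTheory

open scoped InnerProductSpace

namespace Pool.Agent.Lib.MP_0b6b0e_gt.ZB.H3

open Pool.Agent.Lib.MP_0b6b0e_gt.ZB

/-! ### The radial integral -/

/-- The radial constant. -/
noncomputable def kap (i : ℕ) : ℝ := ∫ r in Ioi (0 : ℝ), r ^ i * (Real.exp (-r ^ 2) * r⁻¹)

theorem rad_int (i : ℕ) (hi : 1 ≤ i) (b : ℝ) (hb : 0 < b) :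
    IntegrableOn (fun r : ℝ => r ^ i * (Real.exp (-(b * r ^ 2)) * r⁻¹)) (Ioi 0) := by
  have h := (integrable_rpow_mul_exp_neg_mul_sq hb (s := ((i - 1 : ℕ) : ℝ))
    (by have : (0 : ℝ) ≤ ((i - 1 : ℕ) : ℝ) := Nat.cast_nonneg _; linarith)).integrableOn
    (s := Ioi (0 : ℝ))
  refine h.congr_fun (fun r hr => ?_) measurableSet_Ioi
  have hr' : (0 : ℝ) < r := hr
  simp only [Real.rpow_natCast]
  obtain ⟨j, rfl⟩ : ∃ j, i = j + 1 := ⟨i - 1, by omega⟩
  simp only [Nat.add_sub_cancel]
  have : Real.exp (-(b * r ^ 2)) = Real.exp (-b * r ^ 2) := by congr 1; ring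
  rw [this, pow_succ r j]
  field_simp

theorem kap_pos (i : ℕ) (hi : 1 ≤ i) : 0 < kap i := by
  unfold kap
  have h := rad_int i hi 1 one_pos
  simp only [one_mul] at h
  rw [setIntegral_pos_iff_support_of_nonneg_ae]
  · have : Function.support (fun r : ℝ => r ^ i * (Real.exp (-r ^ 2) * r⁻¹)) ∩ Ioi 0 = Ioi 0 := by
      ext r
      simp only [mem_inter_iff, Function.mem_support, mem_Ioi, and_iff_right_iff_imp]
      intro hr
      positivity
    rw [this]
    simp
  · filter_upwards [ae_restrict_mem measurableSet_Ioi] with r hr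
    have hr' : (0 : ℝ) < r := hr
    simp only [Pi.zero_apply]
    positivity
  · exact h

theorem rad_scale (i : ℕ) (hi : 1 ≤ i) (a : ℝ) (ha : 0 < a) :
    ∫ r in Ioi (0 : ℝ), r ^ i * (Real.exp (-(r * a) ^ 2) * r⁻¹) = (a⁻¹) ^ i * kap i := by
  have h := integral_comp_mul_right_Ioi (fun r : ℝ => r ^ i * (Real.exp (-r ^ 2) * r⁻¹)) 0 ha
  rw [zero_mul, smul_eq_mul] at h
  obtain ⟨j, rfl⟩ : ∃ j, i = j + 1 := ⟨i - 1, by omega⟩
  have h2 : ∫ r in Ioi (0 : ℝ), r ^ (j + 1) * (Real.exp (-(r * a) ^ 2) * r⁻¹) =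
      (a⁻¹) ^ j * ∫ r in Ioi (0 : ℝ), (r * a) ^ (j + 1) * (Real.exp (-(r * a) ^ 2) * (r * a)⁻¹) := by
    rw [← integral_const_mul]
    refine setIntegral_congr_fun measurableSet_Ioi (fun r hr => ?_)
    have hr' : (0 : ℝ) < r := hr
    have hE : Real.exp (-(r * a) ^ 2) ≠ 0 := (Real.exp_pos _).ne'
    generalize Real.exp (-(r * a) ^ 2) = E at hE
    rw [mul_inv, inv_pow]
    field_simp
    ring
  rw [h2, h, pow_succ]
  unfold kap
  ring

theorem aux_integrable (i : ℕ) (g : ℝ → ℝ)
    (hg : IntegrableOn (fun r : ℝ => r ^ i * g r) (Ioi 0)) :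
    Integrable (fun r : Ioi (0 : ℝ) => g r) (Measure.volumeIoiPow i) := by
  rw [integrableOn_iff_comap_subtypeVal measurableSet_Ioi] at hg
  rw [Measure.volumeIoiPow, integrable_withDensity_iff_integrable_smul']
  · refine hg.congr (Eventually.of_forall ?_)
    rintro ⟨x, hx : 0 < x⟩
    simp (disch := positivity) [ENNReal.toReal_ofReal, smul_eq_mul]
  · fun_prop
  · simp

theorem aux_integral (i : ℕ) (g : ℝ → ℝ) :
    ∫ r : Ioi (0 : ℝ), g r ∂(Measure.volumeIoiPow i) = ∫ r in Ioi (0 : ℝ), r ^ i * g r := by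
  simp only [Measure.volumeIoiPow, ENNReal.ofReal]
  rw [integral_withDensity_eq_integral_smul,
    integral_subtype_comap measurableSet_Ioi fun a ↦ Real.toNNReal (a ^ i) • g a,
    setIntegral_congr_fun measurableSet_Ioi fun x hx ↦ ?_]
  · rw [NNReal.smul_def, Real.coe_toNNReal _ (pow_nonneg (le_of_lt hx) _), smul_eq_mul]
  · exact (measurable_subtype_coe.pow_const _).real_toNNReal

section

variable {V : Type} [NormedAddCommGroup V] [InnerProductSpace ℝ V]

theorem isG_cont {P : V → ℝ} (hP : IsG P) : Continuous P := by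
  obtain ⟨C, hC, hu⟩ := hP.upper
  have h : ∀ x y, |P x - P y| ≤ C * ‖x - y‖ := by
    intro x y
    have h1 := hP.add (x - y) y
    have h2 := hP.add (y - x) x
    rw [sub_add_cancel] at h1 h2
    have h3 := hu (x - y)
    have h4 := hu (y - x)
    rw [norm_sub_rev] at h4
    rw [abs_le]; constructor <;> linarith
  have : LipschitzWith (Real.toNNReal C) P := by
    refine LipschitzWith.of_dist_le_mul (fun x y => ?_)
    rw [Real.dist_eq, dist_eq_norm, Real.coe_toNNReal _ hC.le]
    exact h x y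
  exact this.continuous

theorem isG_pos {P : V → ℝ} (hP : IsG P) {x : V} (hx : x ≠ 0) : 0 < P x := by
  obtain ⟨c, hc, hl⟩ := hP.lower
  have : 0 < ‖x‖ := norm_pos_iff.mpr hx
  exact lt_of_lt_of_le (by positivity) (hl x)

/-- The weight. -/
noncomputable def wt (e : V) (t : ℝ) (x : V) : ℝ :=
  ‖x‖⁻¹ * Real.exp (-t * (1 - (⟪e, x⟫_ℝ / ‖x‖) ^ 2))

variable [FiniteDimensional ℝ V] [MeasurableSpace V] [BorelSpace V]

theorem symm_apply (p : Metric.sphere (0 : V) 1 × Ioi (0 : ℝ)) :
    (((homeomorphUnitSphereProd V).symm p : ({0}ᶜ : Set V)) : V) = (p.2 : ℝ) • (p.1 : V) := by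
  simp [homeomorphUnitSphereProd]

theorem wt_apply (e : V) (t : ℝ) (ω : Metric.sphere (0 : V) 1) (r : ℝ) (hr : 0 < r) :
    wt e t (r • (ω : V)) = r⁻¹ * Real.exp (-t * (1 - ⟪e, (ω : V)⟫_ℝ ^ 2)) := by
  have h1 : ‖(ω : V)‖ = 1 := norm_eq_of_mem_sphere ω
  unfold wt
  rw [norm_smul, Real.norm_of_nonneg hr.le, h1, mul_one, inner_smul_right,
    mul_div_cancel_left₀ _ hr.ne']

theorem wt_meas (e : V) (t : ℝ) : Measurable (wt e t) := by
  unfold wt
  have h1 : Measurable fun x : V => ⟪e, x⟫_ℝ := (continuous_const.inner continuous_id).measurable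
  have h2 : Measurable fun x : V => ‖x‖ := measurable_norm
  exact h2.inv.mul (Real.measurable_exp.comp
    (measurable_const.mul (measurable_const.sub ((h1.div h2).pow_const 2))))

theorem polar (i : ℕ) (hi : 1 ≤ i) (hd : Module.finrank ℝ V = i + 1) (P : V → ℝ) (hP : IsG P)
    (e : V) (he : ‖e‖ = 1) (t : ℝ) (ht : 0 ≤ t) :
    Integrable (fun x : V => Real.exp (-(P x) ^ 2) * wt e t x) ∧
    ∫ x : V, Real.exp (-(P x) ^ 2) * wt e t x =
      ∫ ω : Metric.sphere (0 : V) 1, ((P ω)⁻¹ ^ i * Real.exp (-t * (1 - ⟪e, (ω : V)⟫_ℝ ^ 2))) * kap i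
        ∂((volume : Measure V).toSphere) := by
  have hmp := (volume : Measure V).measurePreserving_homeomorphUnitSphereProd
  rw [hd, Nat.add_sub_cancel] at hmp
  have hemb : MeasurableEmbedding (homeomorphUnitSphereProd V) :=
    (homeomorphUnitSphereProd V).measurableEmbedding
  set F : V → ℝ := fun x => Real.exp (-(P x) ^ 2) * wt e t x with hF
  have hFm : Measurable F :=
    (Real.measurable_exp.comp ((isG_cont hP).measurable.pow_const 2).neg).mul (wt_meas e t)
  set Φ : Metric.sphere (0 : V) 1 × Ioi (0 : ℝ) → ℝ :=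
    fun p => F ((p.2 : ℝ) • (p.1 : V)) with hΦ
  have hΦm : Measurable Φ := by
    refine hFm.comp ?_
    exact ((measurable_subtype_coe.comp measurable_snd).smul
      (measurable_subtype_coe.comp measurable_fst))
  have hcomp : ∀ x : ({0}ᶜ : Set V), Φ (homeomorphUnitSphereProd V x) = F x := by
    intro x
    simp only [hΦ]
    rw [← symm_apply, Homeomorph.symm_apply_apply]
  obtain ⟨c, hc, hl⟩ := hP.lower
  have hint : Integrable Φ ((volume : Measure V).toSphere.prod (Measure.volumeIoiPow i)) := by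
    have h1 := aux_integrable i (fun r => Real.exp (-(c ^ 2 * r ^ 2)) * r⁻¹)
      (rad_int i hi (c ^ 2) (by positivity))
    have h2 := h1.comp_snd ((volume : Measure V).toSphere)
    refine h2.mono' hΦm.aestronglyMeasurable (Eventually.of_forall ?_)
    rintro ⟨ω, r, hr⟩
    have hr' : (0 : ℝ) < r := hr
    have hω : ‖(ω : V)‖ = 1 := norm_eq_of_mem_sphere ω
    simp only [hΦ, hF]
    rw [wt_apply e t ω r hr', norm_mul, norm_mul, Real.norm_of_nonneg (Real.exp_pos _).le,
      Real.norm_of_nonneg (Real.exp_pos _).le, Real.norm_of_nonneg (inv_pos.mpr hr').le]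
    have h3 : c * r ≤ P (r • (ω : V)) := by
      have := hl (r • (ω : V))
      rwa [norm_smul, hω, mul_one, Real.norm_of_nonneg hr'.le] at this
    have h4 : Real.exp (-(P (r • (ω : V))) ^ 2) ≤ Real.exp (-(c ^ 2 * r ^ 2)) := by
      apply Real.exp_le_exp.mpr
      have : (c * r) ^ 2 ≤ (P (r • (ω : V))) ^ 2 := pow_le_pow_left₀ (by positivity) h3 2
      nlinarith
    have h5 : Real.exp (-t * (1 - ⟪e, (ω : V)⟫_ℝ ^ 2)) ≤ 1 := by
      rw [Real.exp_le_one_iff]
      have h6 : |⟪e, (ω : V)⟫_ℝ| ≤ 1 := by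
        have := abs_real_inner_le_norm e (ω : V)
        rwa [he, hω, mul_one] at this
      have h7 : ⟪e, (ω : V)⟫_ℝ ^ 2 ≤ 1 := by
        rw [← sq_abs]; exact pow_le_one₀ (abs_nonneg _) h6
      nlinarith
    calc Real.exp (-(P (r • (ω : V))) ^ 2) * (r⁻¹ * Real.exp (-t * (1 - ⟪e, (ω : V)⟫_ℝ ^ 2)))
        ≤ Real.exp (-(c ^ 2 * r ^ 2)) * (r⁻¹ * 1) := by gcongr
      _ = Real.exp (-(c ^ 2 * r ^ 2)) * r⁻¹ := by rw [mul_one]
  have hintF : Integrable F := by
    have h2 := hmp.integrable_comp_emb (g := Φ) hemb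
    have e1 : Φ ∘ (homeomorphUnitSphereProd V) = fun x : ({0}ᶜ : Set V) => F x :=
      funext hcomp
    rw [e1] at h2
    have h3 := h2.2 hint
    have h4 : IntegrableOn F ({0}ᶜ : Set V) := by
      rw [integrableOn_iff_comap_subtypeVal (measurableSet_singleton _).compl]
      exact h3
    haveI : Nontrivial V := Module.nontrivial_of_finrank_pos (R := ℝ) (by omega)
    rwa [IntegrableOn, restrict_compl_singleton] at h4
  refine ⟨hintF, ?_⟩
  haveI : Nontrivial V := Module.nontrivial_of_finrank_pos (R := ℝ) (by omega)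
  calc ∫ z, F z = ∫ x : ({0}ᶜ : Set V), F x ∂(Measure.comap (↑) (volume : Measure V)) := by
        rw [integral_subtype_comap (measurableSet_singleton _).compl fun x ↦ F x,
          restrict_compl_singleton]
    _ = ∫ p, Φ p ∂((volume : Measure V).toSphere.prod (Measure.volumeIoiPow i)) := by
        have h4 := hmp.integral_comp hemb Φ
        refine Eq.trans ?_ h4
        exact integral_congr_ae (Eventually.of_forall fun x => (hcomp x).symm)
    _ = ∫ ω, ∫ r, Φ (ω, r) ∂(Measure.volumeIoiPow i) ∂((volume : Measure V).toSphere) :=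
        integral_prod _ hint
    _ = _ := by
        congr 1
        funext ω
        have h5 := aux_integral i (fun r => F (r • (ω : V)))
        have h6 : ∫ r in Ioi (0 : ℝ), r ^ i * F (r • (ω : V)) =
            Real.exp (-t * (1 - ⟪e, (ω : V)⟫_ℝ ^ 2)) *
              ∫ r in Ioi (0 : ℝ), r ^ i * (Real.exp (-(r * P ω) ^ 2) * r⁻¹) := by
          rw [← integral_const_mul]
          refine setIntegral_congr_fun measurableSet_Ioi (fun r hr => ?_)
          have hr' : (0 : ℝ) < r := hr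
          simp only [hF]
          rw [wt_apply e t ω r hr', hP.smul r hr'.le]
          ring
        have hω : (ω : V) ≠ 0 := by
          intro h
          have : ‖(ω : V)‖ = 1 := norm_eq_of_mem_sphere ω
          rw [h, norm_zero] at this
          norm_num at this
        refine h5.trans (h6.trans ?_)
        rw [rad_scale i hi (P ω) (isG_pos hP hω)]
        ring

/-! ### Concentration -/

theorem conc (μ : Measure (Metric.sphere (0 : V) 1)) [IsFiniteMeasure μ] [μ.IsOpenPosMeasure]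
    (g : Metric.sphere (0 : V) 1 → ℝ) (hg : Continuous g) (e : Metric.sphere (0 : V) 1)
    (he : g (-e) = g e)
    (h : ∀ t : ℝ, 0 ≤ t → ∫ ω, g ω * Real.exp (-t * (1 - ⟪(e : V), (ω : V)⟫_ℝ ^ 2)) ∂μ = 0) :
    g e ≤ 0 := by
  by_contra hne
  push Not at hne
  have hen : ‖(e : V)‖ = 1 := norm_eq_of_mem_sphere e
  -- a neighbourhood of `± e` where `g` is large
  obtain ⟨η1, hη1, h1⟩ : ∃ η > 0, ∀ ω : Metric.sphere (0 : V) 1, dist ω e < η → g e / 2 < g ω := by
    have := (hg.tendsto e).eventually (lt_mem_nhds (show g e / 2 < g e by linarith))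
    exact Metric.eventually_nhds_iff.mp this
  obtain ⟨η2, hη2, h2⟩ : ∃ η > 0, ∀ ω : Metric.sphere (0 : V) 1, dist ω (-e) < η →
      g e / 2 < g ω := by
    have := (hg.tendsto (-e)).eventually (lt_mem_nhds (show g e / 2 < g (-e) by rw [he]; linarith))
    exact Metric.eventually_nhds_iff.mp this
  set η := min η1 η2 with hη
  have hη0 : 0 < η := lt_min hη1 hη2
  set d : ℝ := η ^ 2 / 2 with hd
  have hd0 : 0 < d := by positivity
  set u : Metric.sphere (0 : V) 1 → ℝ := fun ω => 1 - ⟪(e : V), (ω : V)⟫_ℝ ^ 2 with hu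
  have huc : Continuous u := by
    have : Continuous fun ω : Metric.sphere (0 : V) 1 => ⟪(e : V), (ω : V)⟫_ℝ :=
      continuous_const.inner continuous_subtype_val
    exact continuous_const.sub (this.pow 2)
  have hu0 : ∀ ω, 0 ≤ u ω := by
    intro ω
    have hω : ‖(ω : V)‖ = 1 := norm_eq_of_mem_sphere ω
    have h6 : |⟪(e : V), (ω : V)⟫_ℝ| ≤ 1 := by
      have := abs_real_inner_le_norm (e : V) (ω : V)
      rwa [hen, hω, mul_one] at this
    have h7 : ⟪(e : V), (ω : V)⟫_ℝ ^ 2 ≤ 1 := by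
      rw [← sq_abs]; exact pow_le_one₀ (abs_nonneg _) h6
    simp only [hu]; linarith
  have hnear : ∀ ω, u ω < d → g e / 2 < g ω := by
    intro ω hω
    have hωn : ‖(ω : V)‖ = 1 := norm_eq_of_mem_sphere ω
    have h6 : |⟪(e : V), (ω : V)⟫_ℝ| ≤ 1 := by
      have := abs_real_inner_le_norm (e : V) (ω : V)
      rwa [hen, hωn, mul_one] at this
    obtain ⟨h7, h8⟩ := abs_le.mp h6
    simp only [hu] at hω
    rcases le_total 0 ⟪(e : V), (ω : V)⟫_ℝ with h0 | h0
    · apply h1
      rw [Subtype.dist_eq, dist_eq_norm]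
      have h9 : ‖(ω : V) - e‖ ^ 2 < η ^ 2 := by
        rw [norm_sub_sq_real, hωn, hen, real_inner_comm]
        nlinarith
      exact lt_of_lt_of_le (lt_of_pow_lt_pow_left₀ 2 hη0.le h9) (min_le_left _ _)
    · apply h2
      rw [Subtype.dist_eq, dist_eq_norm]
      have h9 : ‖(ω : V) - ((-e : Metric.sphere (0 : V) 1) : V)‖ ^ 2 < η ^ 2 := by
        have : ((-e : Metric.sphere (0 : V) 1) : V) = -(e : V) := rfl
        rw [this, sub_neg_eq_add, norm_add_sq_real, hωn, hen, real_inner_comm]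
        nlinarith
      exact lt_of_lt_of_le (lt_of_pow_lt_pow_left₀ 2 hη0.le h9) (min_le_right _ _)
  set A : Set (Metric.sphere (0 : V) 1) := {ω | u ω < d / 2} with hA
  have hAo : IsOpen A := isOpen_lt huc continuous_const
  have hAe : e ∈ A := by
    simp only [hA, hu, mem_setOf_eq]
    rw [real_inner_self_eq_norm_sq, hen]
    norm_num
    exact hd0
  have hAm : 0 < μ.real A := by
    rw [measureReal_def]
    exact ENNReal.toReal_pos (hAo.measure_ne_zero _ ⟨e, hAe⟩) (measure_ne_top _ _)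
  obtain ⟨N, hN⟩ : ∃ N : ℝ, ∀ ω, |g ω| ≤ N := by
    haveI : CompactSpace (Metric.sphere (0 : V) 1) := Metric.sphere.compactSpace _ _
    obtain ⟨N, hN⟩ := isCompact_univ.exists_bound_of_continuousOn (f := g) hg.continuousOn
    exact ⟨N, fun ω => by simpa using hN ω (mem_univ _)⟩
  have hN0 : 0 ≤ N := (abs_nonneg _).trans (hN e)
  have key : ∀ t : ℝ, 0 ≤ t → g e / 2 * μ.real A ≤ N * μ.real univ * Real.exp (-(t * (d / 2))) := by
    intro t ht
    have hlow : ∀ ω, A.indicator (fun _ => g e / 2 * Real.exp (-(t * (d / 2)))) ω -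
        N * Real.exp (-(t * d)) ≤ g ω * Real.exp (-t * u ω) := by
      intro ω
      have hexp : 0 < Real.exp (-t * u ω) := Real.exp_pos _
      have hNe : 0 ≤ N * Real.exp (-(t * d)) := by positivity
      by_cases hω : ω ∈ A
      · rw [indicator_of_mem hω]
        have hω' : u ω < d / 2 := hω
        have h3 : g e / 2 < g ω := hnear ω (by linarith)
        have h4 : Real.exp (-(t * (d / 2))) ≤ Real.exp (-t * u ω) := by
          apply Real.exp_le_exp.mpr
          nlinarith
        have : g e / 2 * Real.exp (-(t * (d / 2))) ≤ g ω * Real.exp (-t * u ω) :=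
          mul_le_mul h3.le h4 (Real.exp_pos _).le (by linarith)
        linarith
      · rw [indicator_of_notMem hω, zero_sub]
        by_cases hω2 : u ω < d
        · have h3 : g e / 2 < g ω := hnear ω hω2
          have : 0 ≤ g ω * Real.exp (-t * u ω) := mul_nonneg (by linarith) hexp.le
          linarith
        · have h3 : Real.exp (-t * u ω) ≤ Real.exp (-(t * d)) := by
            apply Real.exp_le_exp.mpr
            push Not at hω2
            nlinarith
          have h4 : -N ≤ g ω := (abs_le.mp (hN ω)).1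
          have h5 : -(N * Real.exp (-t * u ω)) ≤ g ω * Real.exp (-t * u ω) := by
            nlinarith
          have h6 : N * Real.exp (-t * u ω) ≤ N * Real.exp (-(t * d)) :=
            mul_le_mul_of_nonneg_left h3 hN0
          linarith
    have hi1 : Integrable (A.indicator (fun _ : Metric.sphere (0 : V) 1 =>
        g e / 2 * Real.exp (-(t * (d / 2))))) μ :=
      (integrable_const _).indicator hAo.measurableSet
    have hi2 : Integrable (fun ω => g ω * Real.exp (-t * u ω)) μ := by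
      haveI : CompactSpace (Metric.sphere (0 : V) 1) := Metric.sphere.compactSpace _ _
      have hc : Continuous (fun ω => g ω * Real.exp (-t * u ω)) :=
        hg.mul (Real.continuous_exp.comp (continuous_const.mul huc))
      exact hc.integrable_of_hasCompactSupport (HasCompactSupport.of_compactSpace _)
    have h3 := integral_mono (hi1.sub (integrable_const (N * Real.exp (-(t * d))))) hi2
      (fun ω => by simpa using hlow ω)
    have h4 : ∫ ω, g ω * Real.exp (-t * u ω) ∂μ = 0 := h t ht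
    have h5 : ∫ ω, (A.indicator (fun _ : Metric.sphere (0 : V) 1 =>
        g e / 2 * Real.exp (-(t * (d / 2)))) ω - N * Real.exp (-(t * d))) ∂μ =
        μ.real A * (g e / 2 * Real.exp (-(t * (d / 2)))) - μ.real univ * (N * Real.exp (-(t * d))) := by
      rw [integral_sub hi1 (integrable_const _), integral_indicator hAo.measurableSet,
        setIntegral_const, integral_const, smul_eq_mul, smul_eq_mul]
    rw [h4] at h3
    have h6 : μ.real A * (g e / 2 * Real.exp (-(t * (d / 2)))) -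
        μ.real univ * (N * Real.exp (-(t * d))) ≤ 0 := by
      rw [← h5]; exact h3
    have h7 : Real.exp (-(t * d)) = Real.exp (-(t * (d / 2))) * Real.exp (-(t * (d / 2))) := by
      rw [← Real.exp_add]; congr 1; ring
    rw [h7] at h6
    have h8 : 0 < Real.exp (-(t * (d / 2))) := Real.exp_pos _
    have h9 : Real.exp (-(t * (d / 2))) * (g e / 2 * μ.real A -
        N * μ.real univ * Real.exp (-(t * (d / 2)))) ≤ 0 := by nlinarith
    have h10 := nonpos_of_mul_nonpos_right h9 h8
    linarith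
  have hlim : Tendsto (fun t : ℝ => N * μ.real univ * Real.exp (-(t * (d / 2)))) atTop
      (𝓝 (N * μ.real univ * 0)) := by
    refine Tendsto.const_mul _ ?_
    have h3 : Tendsto (fun t : ℝ => t * (d / 2)) atTop atTop :=
      tendsto_id.atTop_mul_const (by positivity)
    exact Real.tendsto_exp_neg_atTop_nhds_zero.comp h3
  rw [mul_zero] at hlim
  have h3 : g e / 2 * μ.real A ≤ 0 := by
    refine ge_of_tendsto hlim ?_
    filter_upwards [eventually_ge_atTop (0 : ℝ)] with t ht using key t ht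
  have h4 : 0 < g e / 2 * μ.real A := by positivity
  linarith

theorem wt_neg (e : V) (t : ℝ) (x : V) : wt e t (-x) = wt e t x := by
  unfold wt
  rw [norm_neg, inner_neg_right, neg_div, neg_sq]

theorem isG_rf {P : V → ℝ} (hP : IsG P) : IsG (rf P) := by
  obtain ⟨c, hc, hl⟩ := hP.lower
  obtain ⟨C, hC, hu⟩ := hP.upper
  refine ⟨fun x y => ?_, fun c hc x => ?_, ⟨c, hc, fun x => ?_⟩, ⟨C, hC, fun x => ?_⟩⟩
  · have := hP.add (-x) (-y)
    unfold rf
    rw [neg_add]; exact this
  · have := hP.smul c hc (-x)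
    unfold rf
    rw [← smul_neg]; exact this
  · have := hl (-x)
    rwa [norm_neg] at this
  · have := hu (-x)
    rwa [norm_neg] at this

/-- The half of the chord relation. -/
theorem half (i : ℕ) (hi : 1 ≤ i) (hd : Module.finrank ℝ V = i + 1) (P p : V → ℝ) (hP : IsG P)
    (hp : IsG p) (h : ∀ e : V, ‖e‖ = 1 → ∀ s : ℝ,
      ∫ x : V, (Real.exp (-(p x) ^ 2) - Real.exp (-(P x) ^ 2)) *
        (‖x‖⁻¹ * Real.exp (-(s ^ 2 / 2) * (1 - (⟪e, x⟫_ℝ / ‖x‖) ^ 2))) = 0)
    (e : Metric.sphere (0 : V) 1) :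
    ((p e)⁻¹ ^ i - (P e)⁻¹ ^ i) + ((rf p e)⁻¹ ^ i - (rf P e)⁻¹ ^ i) ≤ 0 := by
  have hcont : ∀ R : V → ℝ, IsG R → Continuous fun ω : Metric.sphere (0 : V) 1 => (R ω)⁻¹ ^ i := by
    intro R hR
    refine Continuous.pow ?_ i
    refine Continuous.inv₀ ((isG_cont hR).comp continuous_subtype_val) (fun ω => ?_)
    refine (isG_pos hR ?_).ne'
    intro h
    have : ‖(ω : V)‖ = 1 := norm_eq_of_mem_sphere ω
    rw [h, norm_zero] at this
    norm_num at this
  set μ := (volume : Measure V).toSphere with hμ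
  haveI : CompactSpace (Metric.sphere (0 : V) 1) := Metric.sphere.compactSpace _ _
  have hen : ‖(e : V)‖ = 1 := norm_eq_of_mem_sphere e
  -- the transformed relation for a pair
  have tr : ∀ R S : V → ℝ, IsG R → IsG S → (∀ t : ℝ, 0 ≤ t →
      ∫ x : V, (Real.exp (-(R x) ^ 2) - Real.exp (-(S x) ^ 2)) * wt (e : V) t x = 0) →
      ∀ t : ℝ, 0 ≤ t → ∫ ω : Metric.sphere (0 : V) 1, ((R ω)⁻¹ ^ i - (S ω)⁻¹ ^ i) *
        Real.exp (-t * (1 - ⟪(e : V), (ω : V)⟫_ℝ ^ 2)) ∂μ = 0 := by
    intro R S hR hS hRS t ht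
    obtain ⟨i1, e1⟩ := polar i hi hd R hR e hen t ht
    obtain ⟨i2, e2⟩ := polar i hi hd S hS e hen t ht
    have h1 := hRS t ht
    have h2 : ∫ x : V, (Real.exp (-(R x) ^ 2) - Real.exp (-(S x) ^ 2)) * wt (e : V) t x =
        (∫ x : V, Real.exp (-(R x) ^ 2) * wt (e : V) t x) -
          ∫ x : V, Real.exp (-(S x) ^ 2) * wt (e : V) t x := by
      rw [← integral_sub i1 i2]
      congr 1; funext x; ring
    rw [h2, e1, e2, integral_mul_const, integral_mul_const, ← sub_mul] at h1
    have h3 := (mul_eq_zero.mp h1).resolve_right (kap_pos i hi).ne'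
    have hexpc : Continuous fun ω : Metric.sphere (0 : V) 1 =>
        Real.exp (-t * (1 - ⟪(e : V), (ω : V)⟫_ℝ ^ 2)) := by
      have : Continuous fun ω : Metric.sphere (0 : V) 1 => ⟪(e : V), (ω : V)⟫_ℝ :=
        continuous_const.inner continuous_subtype_val
      exact Real.continuous_exp.comp (continuous_const.mul (continuous_const.sub (this.pow 2)))
    rw [← integral_sub] at h3
    · rw [← h3]
      congr 1; funext ω; ring
    · exact ((hcont R hR).mul hexpc).integrable_of_hasCompactSupport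
        (HasCompactSupport.of_compactSpace _)
    · exact ((hcont S hS).mul hexpc).integrable_of_hasCompactSupport
        (HasCompactSupport.of_compactSpace _)
  have h0 : ∀ t : ℝ, 0 ≤ t →
      ∫ x : V, (Real.exp (-(p x) ^ 2) - Real.exp (-(P x) ^ 2)) * wt (e : V) t x = 0 := by
    intro t ht
    have := h e hen (Real.sqrt (2 * t))
    rw [Real.sq_sqrt (by positivity), mul_div_cancel_left₀ _ (by norm_num : (2 : ℝ) ≠ 0)] at this
    exact this
  have h0' : ∀ t : ℝ, 0 ≤ t →
      ∫ x : V, (Real.exp (-(rf p x) ^ 2) - Real.exp (-(rf P x) ^ 2)) * wt (e : V) t x = 0 := by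
    intro t ht
    rw [← h0 t ht, ← integral_neg_eq_self
      (fun x => (Real.exp (-(p x) ^ 2) - Real.exp (-(P x) ^ 2)) * wt (e : V) t x)]
    congr 1; funext x
    rw [wt_neg]; rfl
  have t1 := tr p P hp hP h0
  have t2 := tr (rf p) (rf P) (isG_rf hp) (isG_rf hP) h0'
  refine conc μ (fun ω => ((p ω)⁻¹ ^ i - (P ω)⁻¹ ^ i) + ((rf p ω)⁻¹ ^ i - (rf P ω)⁻¹ ^ i)) ?_ e ?_ ?_
  · exact ((hcont p hp).sub (hcont P hP)).add
      ((hcont _ (isG_rf hp)).sub (hcont _ (isG_rf hP)))
  · have hne : ((-e : Metric.sphere (0 : V) 1) : V) = -(e : V) := rfl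
    simp only [rf, hne, neg_neg]
    ring
  · intro t ht
    have h1 := t1 t ht
    have h2 := t2 t ht
    have hexpc : Continuous fun ω : Metric.sphere (0 : V) 1 =>
        Real.exp (-t * (1 - ⟪(e : V), (ω : V)⟫_ℝ ^ 2)) := by
      have : Continuous fun ω : Metric.sphere (0 : V) 1 => ⟪(e : V), (ω : V)⟫_ℝ :=
        continuous_const.inner continuous_subtype_val
      exact Real.continuous_exp.comp (continuous_const.mul (continuous_const.sub (this.pow 2)))
    simp only [add_mul]
    rw [integral_add, h1, h2, add_zero]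
    · exact (((hcont p hp).sub (hcont P hP)).mul hexpc).integrable_of_hasCompactSupport
        (HasCompactSupport.of_compactSpace _)
    · exact (((hcont _ (isG_rf hp)).sub (hcont _ (isG_rf hP))).mul
        hexpc).integrable_of_hasCompactSupport (HasCompactSupport.of_compactSpace _)

end

theorem f2 : F2Statement := by
  intro V _ _ _ _ _ i hi hd P p hP hp h x hx
  have hn : 0 < ‖x‖ := norm_pos_iff.mpr hx
  have hmem : ‖x‖⁻¹ • x ∈ Metric.sphere (0 : V) 1 := by
    rw [mem_sphere_zero_iff_norm, norm_smul, norm_inv, norm_norm, inv_mul_cancel₀ hn.ne']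
  have h1 := half i hi hd P p hP hp h ⟨_, hmem⟩
  have h' : ∀ e : V, ‖e‖ = 1 → ∀ s : ℝ,
      ∫ x : V, (Real.exp (-(P x) ^ 2) - Real.exp (-(p x) ^ 2)) *
        (‖x‖⁻¹ * Real.exp (-(s ^ 2 / 2) * (1 - (⟪e, x⟫_ℝ / ‖x‖) ^ 2))) = 0 := by
    intro e he s
    have := h e he s
    rw [← neg_eq_zero, ← integral_neg] at this
    rw [← this]
    congr 1; funext x; ring
  have h2 := half i hi hd p P hp hP h' ⟨_, hmem⟩
  simp only [rf] at h1 h2
  have e1 : ∀ R : V → ℝ, IsG R → R (‖x‖⁻¹ • x) = ‖x‖⁻¹ * R x := fun R hR =>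
    hR.smul _ (by positivity) x
  have e2 : ∀ R : V → ℝ, IsG R → R (-(‖x‖⁻¹ • x)) = ‖x‖⁻¹ * R (-x) := fun R hR => by
    rw [← smul_neg]; exact hR.smul _ (by positivity) (-x)
  rw [e1 p hp, e1 P hP, e2 p hp, e2 P hP] at h1 h2
  simp only [mul_inv, inv_inv, mul_pow] at h1 h2
  have h3 : ‖x‖ ^ i * (((p x)⁻¹ ^ i + (p (-x))⁻¹ ^ i) - ((P x)⁻¹ ^ i + (P (-x))⁻¹ ^ i)) = 0 := by
    linarith
  have h4 := (mul_eq_zero.mp h3).resolve_left (pow_pos hn i).ne'
  linarith

end Pool.Agent.Lib.MP_0b6b0e_gt.ZB.H3
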