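import Pool.Agent.Lib.MP_0b6b0e_gt.ZB.Defs

/-!
Module TP: a robust property of gauge functions holds on a residual set of bodies.
-/

set_option autoImplicit false

open Set Filter Topology MeasureTheory

open scoped InnerProductSpace

namespace Pool.Agent.Lib.MP_0b6b0e_gt.ZB.H3

open Pool.Agent.Lib.MP_0b6b0e_gt.ZB

variable {n : ℕ}


theorem mem_iff (K : Body n) (x : EuclideanSpace ℝ (Fin n)) :
    gf K x ≤ 1 ↔ x ∈ (K.1 : Set (EuclideanSpace ℝ (Fin n))) := by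
  have h0 : (K.1 : Set (EuclideanSpace ℝ (Fin n))) ∈ 𝓝 (0 : EuclideanSpace ℝ (Fin n)) :=
    mem_interior_iff_mem_nhds.mp K.2
  have := gauge_le_one_iff_mem_closure (x := x) K.1.convex h0
  rw [K.1.isClosed.closure_eq] at this
  exact this

/-- Scaling: a point with gauge at most `1 + s` is at distance at most `‖x‖ * s` from the body. -/
theorem near_pt (K : Body n) (hK : IsG (gf K)) (x : EuclideanSpace ℝ (Fin n)) (s : ℝ) (hs : 0 ≤ s)
    (hx : gf K x ≤ 1 + s) :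
    ∃ y ∈ (K.1 : Set (EuclideanSpace ℝ (Fin n))), dist x y ≤ ‖x‖ * s := by
  refine ⟨(1 + s)⁻¹ • x, ?_, ?_⟩
  · rw [← mem_iff, hK.smul _ (by positivity)]
    have h1 : 0 < 1 + s := by linarith
    rw [inv_mul_le_iff₀ h1]
    linarith
  · have h1 : 0 < 1 + s := by linarith
    have : x - (1 + s)⁻¹ • x = (s * (1 + s)⁻¹) • x := by
      have h2 : (1 + s) ≠ 0 := h1.ne'
      have : (s * (1 + s)⁻¹) = 1 - (1 + s)⁻¹ := by field_simp; ring
      rw [this, sub_smul, one_smul]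
    rw [dist_eq_norm, this, norm_smul, Real.norm_of_nonneg (by positivity), mul_comm]
    refine mul_le_mul_of_nonneg_left ?_ (norm_nonneg _)
    have : (1 + s)⁻¹ ≤ 1 := inv_le_one_of_one_le₀ (by linarith)
    nlinarith

/-- (T1) -/
theorem t1 (K1 : Body n) (h1 : IsG (gf K1)) (hG : ∀ K : Body n, IsG (gf K)) (ρ : ℝ) (hρ : 0 < ρ) :
    ∃ ε : ℝ, 0 < ε ∧ ∀ K2 : Body n, (∀ x, |gf K2 x - gf K1 x| ≤ ε * ‖x‖) → dist K2 K1 < ρ := by
  obtain ⟨c, hc, hl⟩ := h1.lower
  refine ⟨min (c / 2) (ρ * c ^ 2 / 8), by positivity, fun K2 h => ?_⟩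
  set ε := min (c / 2) (ρ * c ^ 2 / 8) with hε
  have hε0 : 0 < ε := by positivity
  have hε1 : ε ≤ c / 2 := min_le_left _ _
  have hε2 : ε ≤ ρ * c ^ 2 / 8 := min_le_right _ _
  have hd : Metric.hausdorffDist (K2.1 : Set (EuclideanSpace ℝ (Fin n))) K1.1 ≤ ρ / 2 := by
    refine Metric.hausdorffDist_le_of_mem_dist (by positivity) ?_ ?_
    · intro x hx
      rw [← mem_iff] at hx
      have h2 := (abs_le.mp (h x)).1
      have h3 := hl x
      have hn := norm_nonneg x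
      have h4 : ε * ‖x‖ ≤ c / 2 * ‖x‖ := mul_le_mul_of_nonneg_right hε1 hn
      have h5 : ‖x‖ ≤ 2 / c := by
        rw [le_div_iff₀ hc]; linarith
      have h6 : gf K1 x ≤ 1 + ε * (2 / c) := by
        have : ε * ‖x‖ ≤ ε * (2 / c) := mul_le_mul_of_nonneg_left h5 hε0.le
        linarith
      obtain ⟨y, hy, hxy⟩ := near_pt K1 h1 x (ε * (2 / c)) (by positivity) h6
      refine ⟨y, hy, hxy.trans ?_⟩
      calc ‖x‖ * (ε * (2 / c)) ≤ (2 / c) * (ε * (2 / c)) :=
            mul_le_mul_of_nonneg_right h5 (by positivity)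
        _ ≤ (2 / c) * ((ρ * c ^ 2 / 8) * (2 / c)) := by
            gcongr
        _ = ρ / 2 := by field_simp; ring
    · intro x hx
      rw [← mem_iff] at hx
      have h2 := (abs_le.mp (h x)).2
      have h3 := hl x
      have hn := norm_nonneg x
      have h5 : ‖x‖ ≤ 1 / c := by
        rw [le_div_iff₀ hc]; linarith
      have h6 : gf K2 x ≤ 1 + ε * (1 / c) := by
        have : ε * ‖x‖ ≤ ε * (1 / c) := mul_le_mul_of_nonneg_left h5 hε0.le
        linarith
      obtain ⟨y, hy, hxy⟩ := near_pt K2 (hG K2) x (ε * (1 / c)) (by positivity) h6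
      refine ⟨y, hy, hxy.trans ?_⟩
      calc ‖x‖ * (ε * (1 / c)) ≤ (1 / c) * (ε * (1 / c)) :=
            mul_le_mul_of_nonneg_right h5 (by positivity)
        _ ≤ (1 / c) * ((ρ * c ^ 2 / 8) * (1 / c)) := by
            gcongr
        _ = ρ / 8 := by field_simp
        _ ≤ ρ / 2 := by linarith
  have : dist K2 K1 = Metric.hausdorffDist (K2.1 : Set (EuclideanSpace ℝ (Fin n))) K1.1 := by
    rw [Subtype.dist_eq, ConvexBody.hausdorffDist_coe]
  rw [this]
  linarith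

/-- If every point of `A` is `τ`-close to `B` then the gauge of `B` is at most `1 + D τ` times the
gauge of `A`. -/
theorem cmp (A B : Body n) (hA : IsG (gf A)) (hB : IsG (gf B)) (τ D : ℝ) (hD : 0 ≤ D)
    (hAB : ∀ x ∈ (A.1 : Set (EuclideanSpace ℝ (Fin n))),
      ∃ y ∈ (B.1 : Set (EuclideanSpace ℝ (Fin n))), ‖x - y‖ ≤ τ)
    (hBD : ∀ z, gf B z ≤ D * ‖z‖) (x : EuclideanSpace ℝ (Fin n)) :
    gf B x ≤ (1 + D * τ) * gf A x := by
  obtain ⟨c, hc, hl⟩ := hA.lower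
  by_cases hx : x = 0
  · subst hx
    have e1 : gf B 0 = 0 := by have := hB.smul 0 le_rfl 0; simpa using this
    have e2 : gf A 0 = 0 := by have := hA.smul 0 le_rfl 0; simpa using this
    rw [e1, e2]; simp
  · have hn : 0 < ‖x‖ := norm_pos_iff.mpr hx
    have hp : 0 < gf A x := lt_of_lt_of_le (by positivity) (hl x)
    have hm : (gf A x)⁻¹ • x ∈ (A.1 : Set (EuclideanSpace ℝ (Fin n))) := by
      rw [← mem_iff, hA.smul _ (by positivity), inv_mul_cancel₀ hp.ne']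
    obtain ⟨y, hy, hxy⟩ := hAB _ hm
    rw [← mem_iff] at hy
    have h1 : gf B ((gf A x)⁻¹ • x) ≤ 1 + D * τ := by
      have := hB.add y ((gf A x)⁻¹ • x - y)
      rw [add_sub_cancel] at this
      have h2 := hBD ((gf A x)⁻¹ • x - y)
      have h3 : D * ‖(gf A x)⁻¹ • x - y‖ ≤ D * τ := mul_le_mul_of_nonneg_left hxy hD
      linarith
    rw [hB.smul _ (by positivity), inv_mul_le_iff₀ hp] at h1
    linarith

/-- If every point of `A` is `τ`-close to `B` and `A` contains the ball of radius `1 / C`, then `B`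
contains the ball of radius `1 / (2 C)`, for `C τ ≤ 1 / 2`. -/
theorem inball (A B : Body n) (hA : IsG (gf A)) (hB : IsG (gf B)) (τ C : ℝ) (hC : 0 < C)
    (hτ : C * τ ≤ 1 / 2)
    (hAB : ∀ x ∈ (A.1 : Set (EuclideanSpace ℝ (Fin n))),
      ∃ y ∈ (B.1 : Set (EuclideanSpace ℝ (Fin n))), ‖x - y‖ ≤ τ)
    (hAC : ∀ z, gf A z ≤ C * ‖z‖) (z : EuclideanSpace ℝ (Fin n)) :
    gf B z ≤ 2 * C * ‖z‖ := by
  obtain ⟨C', hC', hu⟩ := hB.upper
  have key : ∀ k : ℕ, ∀ z : EuclideanSpace ℝ (Fin n), C * ‖z‖ ≤ 1 / 2 →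
      gf B z ≤ 1 + (C' / C) * (1 / 2) ^ k := by
    intro k
    induction k with
    | zero =>
      intro z hz
      have h1 := hu z
      have h2 : C' * ‖z‖ ≤ C' / C * (1 / 2) := by
        rw [div_mul_eq_mul_div, le_div_iff₀ hC]
        nlinarith
      have h3 : 0 ≤ C' / C := by positivity
      simp only [pow_zero, mul_one]
      linarith
    | succ k ih =>
      intro z hz
      have hm : (2 : ℝ) • z ∈ (A.1 : Set (EuclideanSpace ℝ (Fin n))) := by
        rw [← mem_iff, hA.smul _ (by norm_num)]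
        have := hAC z
        linarith
      obtain ⟨y, hy, hxy⟩ := hAB _ hm
      rw [← mem_iff] at hy
      have h1 := ih ((2 : ℝ) • z - y) (by
        have : C * ‖(2 : ℝ) • z - y‖ ≤ C * τ := mul_le_mul_of_nonneg_left hxy hC.le
        linarith)
      have h2 := hB.add y ((2 : ℝ) • z - y)
      rw [add_sub_cancel, hB.smul _ (by norm_num)] at h2
      rw [pow_succ]
      linarith
  have key2 : ∀ z : EuclideanSpace ℝ (Fin n), C * ‖z‖ ≤ 1 / 2 → gf B z ≤ 1 := by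
    intro z hz
    have ht : Tendsto (fun k : ℕ => 1 + (C' / C) * (1 / 2 : ℝ) ^ k) atTop (𝓝 (1 + (C' / C) * 0)) :=
      (tendsto_pow_atTop_nhds_zero_of_lt_one (by norm_num) (by norm_num)).const_mul _
        |>.const_add _
    rw [mul_zero, add_zero] at ht
    exact ge_of_tendsto' ht (fun k => key k z hz)
  by_cases hz : z = 0
  · subst hz
    have e1 : gf B 0 = 0 := by have := hB.smul 0 le_rfl 0; simpa using this
    rw [e1]; simp
  · have hn : 0 < ‖z‖ := norm_pos_iff.mpr hz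
    have h1 := key2 ((2 * C * ‖z‖)⁻¹ • z) (by
      rw [norm_smul, Real.norm_of_nonneg (by positivity)]
      apply le_of_eq
      field_simp)
    rw [hB.smul _ (by positivity), inv_mul_le_iff₀ (by positivity)] at h1
    linarith

/-- (T2) -/
theorem t2 (K2 : Body n) (hG : ∀ K : Body n, IsG (gf K)) (δ : ℝ) (hδ : 0 < δ) :
    ∀ᶠ K in 𝓝 K2, ∀ x, |gf K x - gf K2 x| ≤ δ * ‖x‖ := by
  obtain ⟨C, hC, hu⟩ := (hG K2).upper
  set τ : ℝ := min (1 / (2 * C)) (δ / (4 * C ^ 2)) with hτ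
  have hτ0 : 0 < τ := by positivity
  have hτ1 : C * τ ≤ 1 / 2 := by
    calc C * τ ≤ C * (1 / (2 * C)) := mul_le_mul_of_nonneg_left (min_le_left _ _) hC.le
      _ = 1 / 2 := by field_simp
  have hτ2 : 4 * C ^ 2 * τ ≤ δ := by
    calc 4 * C ^ 2 * τ ≤ 4 * C ^ 2 * (δ / (4 * C ^ 2)) :=
          mul_le_mul_of_nonneg_left (min_le_right _ _) (by positivity)
      _ = δ := by field_simp
  filter_upwards [Metric.ball_mem_nhds K2 hτ0] with K hK x
  have hd : Metric.hausdorffDist (K.1 : Set (EuclideanSpace ℝ (Fin n))) K2.1 < τ := by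
    have : dist K K2 = Metric.hausdorffDist (K.1 : Set (EuclideanSpace ℝ (Fin n))) K2.1 := by
      rw [Subtype.dist_eq, ConvexBody.hausdorffDist_coe]
    rw [← this]; exact hK
  have hfin : Metric.hausdorffEDist (K.1 : Set (EuclideanSpace ℝ (Fin n))) K2.1 ≠ ⊤ :=
    ConvexBody.hausdorffEDist_ne_top
  have hAB : ∀ x ∈ (K.1 : Set (EuclideanSpace ℝ (Fin n))),
      ∃ y ∈ (K2.1 : Set (EuclideanSpace ℝ (Fin n))), ‖x - y‖ ≤ τ := by
    intro x hx
    obtain ⟨y, hy, hxy⟩ := Metric.exists_dist_lt_of_hausdorffDist_lt hx hd hfin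
    exact ⟨y, hy, by rw [← dist_eq_norm]; exact hxy.le⟩
  have hBA : ∀ x ∈ (K2.1 : Set (EuclideanSpace ℝ (Fin n))),
      ∃ y ∈ (K.1 : Set (EuclideanSpace ℝ (Fin n))), ‖x - y‖ ≤ τ := by
    intro x hx
    obtain ⟨y, hy, hxy⟩ := Metric.exists_dist_lt_of_hausdorffDist_lt' hx hd hfin
    exact ⟨y, hy, by rw [← dist_eq_norm, dist_comm]; exact hxy.le⟩
  have hK2 : ∀ z, gf K z ≤ 2 * C * ‖z‖ :=
    inball K2 K (hG K2) (hG K) τ C hC hτ1 hBA hu
  have h1 := cmp K K2 (hG K) (hG K2) τ C hC.le hAB hu x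
  have h2 := cmp K2 K (hG K2) (hG K) τ (2 * C) (by positivity) hBA hK2 x
  have h3 := hu x
  have h4 := hK2 x
  have hn := norm_nonneg x
  have h5 : 4 * C ^ 2 * τ * ‖x‖ ≤ δ * ‖x‖ := mul_le_mul_of_nonneg_right hτ2 hn
  have h6 : C * τ * gf K x ≤ C * τ * (2 * C * ‖x‖) := mul_le_mul_of_nonneg_left h4 (by positivity)
  have h7 : 2 * C * τ * gf K2 x ≤ 2 * C * τ * (C * ‖x‖) :=
    mul_le_mul_of_nonneg_left h3 (by positivity)
  have h8 : 0 ≤ C ^ 2 * τ * ‖x‖ := by positivity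
  rw [abs_le]
  constructor
  · nlinarith
  · nlinarith

theorem tp (hGB : GBStatement) : TPStatement := by
  obtain ⟨hG, -, -, hex⟩ := hGB
  intro n Φ hΦ
  set S : Set (Body n) := {K | Φ (gf K)} with hS
  have hd : Dense (interior S) := by
    rw [Metric.dense_iff]
    intro K1 ρ hρ
    obtain ⟨ε, hε, h1⟩ := t1 K1 (hG n K1) (hG n) ρ hρ
    obtain ⟨P', hP', hP1, δ, hδ, hP2⟩ := hΦ (gf K1) (hG n K1) ε hε
    obtain ⟨K2, hK2⟩ := hex n P' hP'
    refine ⟨K2, ?_, ?_⟩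
    · rw [Metric.mem_ball]
      exact h1 K2 (by rw [hK2]; exact hP1)
    · rw [mem_interior_iff_mem_nhds]
      filter_upwards [t2 K2 (hG n) δ hδ] with K hK
      exact hP2 (gf K) (hG n K) (by rw [← hK2]; exact hK)
  exact mem_of_superset (residual_of_dense_open isOpen_interior hd) interior_subset

end Pool.Agent.Lib.MP_0b6b0e_gt.ZB.H3
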